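import Pool.Agent.MP_120ee9_mp.Mg.Transfer

namespace Pool.Agent.Results.MP_120ee9_mp.AcSpectrumFills

open Pool.Agent.MP_120ee9_mp

/-- If the Fu-Kane-Mele indices of two local time-reversal symmetric insulators differ on a common
gap `G`, and both `Ω` and its complement contain parabolic regions, then `G` is contained in the
absolutely continuous spectrum of every time-reversal symmetric interface Hamiltonian. -/
theorem result {H : Type*} [NormedAddCommGroup H] [InnerProductSpace ℂ H] [CompleteSpace H]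
    (m : ℕ) (b : HilbertBasis ((ℤ × ℤ) × Fin m) ℂ H)
    (Θ : H ≃ₗᵢ⋆[ℂ] H) (hΘ : TimeReversal b Θ)
    (U : H →L[ℂ] H) (hU : IsMul b (fun z => Complex.exp (Complex.arg z * Complex.I)) U)
    (Hp Hm : H →L[ℂ] H) (hp : Local b Hp ∧ IsTRS Θ Hp) (hm : Local b Hm ∧ IsTRS Θ Hm)
    (G : Set ℝ)
    (hG : ∀ E ∈ G, (E : ℂ) ∉ spectrum ℂ Hp ∧ (E : ℂ) ∉ spectrum ℂ Hm ∧
      ind2 (compress (fermi Hp E) U) ≠ ind2 (compress (fermi Hm E) U))
    (Ω : Set ℂ) (hΩ : ContainsParabolic Ω) (hΩc : ContainsParabolic Ωᶜ)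
    (Hh : H →L[ℂ] H) (hh : Interface b Hp Hm Ω Hh ∧ IsTRS Θ Hh) :
    G ⊆ acSpectrum Hh := fun E hE =>
  main' hΘ hU hp.1 hp.2 hm.1 hm.2 (hG E hE).1 (hG E hE).2.1 (hG E hE).2.2 hΩ hΩc hh.1 hh.2

end Pool.Agent.Results.MP_120ee9_mp.AcSpectrumFills
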